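import Pool.Agent.H887.BK.D2

/-!
# The diagonal form
-/

set_option autoImplicit false
set_option linter.unusedSectionVars false
set_option linter.unusedVariables false

namespace Pool.Agent.H747.BK

open MvPolynomial Pool.Agent.H425 Pool.Agent.H887.BK

section gen

variable {ι : Type} [Fintype ι] [DecidableEq ι] {L : Type} [CommRing L]

theorem fam_zero (d : ℕ) (a : ι → L) (c : (ι →₀ ℕ) → L) (s : ι →₀ ℕ) :
    fam d a c 0 s = ∑ i, if s = Finsupp.single i d then a i else 0 := by
  classical
  unfold fam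
  simp only [zero_mul, ite_self, add_zero]

theorem fam_single {d : ℕ} (hd : 0 < d) (a : ι → L) (c : (ι →₀ ℕ) → L) (i : ι) :
    fam d a c 0 (Finsupp.single i d) = a i := by
  rw [fam_zero, Finset.sum_eq_single i]
  · rw [if_pos rfl]
  · intro j _ hj
    rw [if_neg]
    intro h
    exact hj ((Finsupp.single_left_inj hd.ne').1 h).symm
  · intro h; exact absurd (Finset.mem_univ _) h

theorem fam_ne (d : ℕ) (a : ι → L) (c : (ι →₀ ℕ) → L) (s : ι →₀ ℕ)
    (hs : ∀ i, s ≠ Finsupp.single i d) : fam d a c 0 s = 0 := by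
  rw [fam_zero]
  exact Finset.sum_eq_zero fun i _ => if_neg (hs i)

theorem form_zero (d : ℕ) (a : ι → L) (c : (ι →₀ ℕ) → L) :
    form d (fam d a c 0) = ∑ i, monomial (Finsupp.single i d) (a i) := by
  unfold form
  simp only [fam_zero, map_sum]
  rw [Finset.sum_comm]
  refine Finset.sum_congr rfl fun i _ => ?_
  rw [Finset.sum_eq_single (Finsupp.single i d)]
  · rw [if_pos rfl]
  · intro s _ hs; rw [if_neg hs, map_zero]
  · intro h
    exact absurd ((mem_Sd d _).2 (Finsupp.degree_single _ _)) h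

theorem pd (e : ℕ) (a : ι → L) (c : (ι →₀ ℕ) → L) (i : ι) :
    pderiv i (form (e + 1) (fam (e + 1) a c 0)) =
      monomial (Finsupp.single i e) (((e + 1 : ℕ) : L) * a i) := by
  rw [form_zero, map_sum, Finset.sum_eq_single i]
  · rw [pderiv_monomial_single, mul_comm, Nat.add_sub_cancel]
  · intro j _ hj
    rw [pderiv_monomial, Finsupp.single_eq_of_ne hj.symm]
    simp
  · intro h; exact absurd (Finset.mem_univ _) h

theorem rd0_mono (e : ℕ) (dinv : L) (b : ι → L) (w : ι →₀ ℕ) :
    rd0 e dinv b (monomial w 1) = fun u : ι → Fin e =>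
      if ∀ i, w i % (e + 1) = (u i : ℕ) then r0c (e + 1) dinv b w else 0 := by
  have := (basisMonomials ι L).constr_basis L (fun (w : ι →₀ ℕ) (u : ι → Fin e) =>
    if ∀ i, w i % (e + 1) = (u i : ℕ) then r0c (e + 1) dinv b w else 0) w
  rw [coe_basisMonomials] at this
  exact this

theorem rd0_mono' (e : ℕ) (dinv : L) (b : ι → L) (w : ι →₀ ℕ) (r : L) (u : ι → Fin e) :
    rd0 e dinv b (monomial w r) u =
      r * if ∀ i, w i % (e + 1) = (u i : ℕ) then r0c (e + 1) dinv b w else 0 := by
  have h : monomial w r = r • monomial w (1 : L) := by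
    rw [smul_monomial, smul_eq_mul, mul_one]
  rw [h, map_smul, rd0_mono, Pi.smul_apply, smul_eq_mul]

theorem r0c_step (d : ℕ) (dinv : L) (b : ι → L) (w w' : ι →₀ ℕ) (i : ι) (hd : 0 < d)
    (hi : w' i = w i + d) (hj : ∀ j, j ≠ i → w' j = w j) :
    r0c d dinv b w' = r0c d dinv b w * (-(b i * dinv * ((w i + 1 : ℕ) : L))) := by
  unfold r0c
  rw [← Finset.mul_prod_erase Finset.univ _ (Finset.mem_univ i),
    ← Finset.mul_prod_erase Finset.univ
      (fun i => ∏ k ∈ Finset.range (w i / d), (-(b i * dinv * ((w i % d + 1 + d * k : ℕ) : L))))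
      (Finset.mem_univ i)]
  have h1 : ∏ x ∈ Finset.univ.erase i, ∏ k ∈ Finset.range (w' x / d),
      (-(b x * dinv * ((w' x % d + 1 + d * k : ℕ) : L))) =
      ∏ x ∈ Finset.univ.erase i, ∏ k ∈ Finset.range (w x / d),
      (-(b x * dinv * ((w x % d + 1 + d * k : ℕ) : L))) := by
    refine Finset.prod_congr rfl fun j hj' => ?_
    rw [hj j (Finset.ne_of_mem_erase hj')]
  rw [h1, hi, Nat.add_div_right _ hd, Nat.add_mod_right, Finset.prod_range_succ]
  have h2 : w i % d + 1 + d * (w i / d) = w i + 1 := by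
    have := Nat.mod_add_div (w i) d
    omega
  rw [h2]
  ring

end gen

theorem h_R0 : S_R0 := by
  intro ι _ _ L _ e dinv a b c he hd hab
  refine ⟨fun i P => ?_, fun u => ?_⟩
  · have key : (rd0 e dinv b).comp (yop (form (e + 1) (fam (e + 1) a c 0)) i) = 0 := by
      refine linmap_ext fun w => ?_
      rw [LinearMap.comp_apply, yop_apply, pd, pderiv_monomial, monomial_mul, LinearMap.zero_apply,
        map_add]
      funext u
      rw [Pi.add_apply, rd0_mono', rd0_mono', Pi.zero_apply, one_mul, mul_one]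
      rcases Nat.eq_zero_or_pos (w i) with h0 | h0
      · rw [h0, Nat.cast_zero, zero_mul, zero_add, if_neg, mul_zero]
        intro h
        have h1 := h i
        rw [Finsupp.add_apply, Finsupp.single_eq_same, h0, add_zero,
          Nat.mod_eq_of_lt (Nat.lt_succ_self e)] at h1
        have := (u i).2
        omega
      · set w1 := w - Finsupp.single i 1 with hw1
        set w2 := Finsupp.single i e + w with hw2
        have e1 : w1 i + 1 = w i := by
          rw [hw1, Finsupp.tsub_apply, Finsupp.single_eq_same]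
          omega
        have e2 : w2 i = w1 i + (e + 1) := by
          rw [hw2, Finsupp.add_apply, Finsupp.single_eq_same]
          omega
        have e3 : ∀ j, j ≠ i → w2 j = w1 j := by
          intro j hj
          rw [hw2, hw1, Finsupp.add_apply, Finsupp.tsub_apply, Finsupp.single_eq_of_ne hj,
            Finsupp.single_eq_of_ne hj]
          omega
        have e4 : (∀ j, w2 j % (e + 1) = (u j : ℕ)) ↔ ∀ j, w1 j % (e + 1) = (u j : ℕ) := by
          refine forall_congr' fun j => ?_
          by_cases hj : j = i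
          · subst hj; rw [e2, Nat.add_mod_right]
          · rw [e3 j hj]
        rw [r0c_step (e + 1) dinv b w1 w2 i (Nat.succ_pos e) e2 e3, e1]
        simp only [e4]
        split_ifs
        · have h3 := hab i
          linear_combination (-(w i : L) * r0c (e + 1) dinv b w1) *
            (a i * b i * hd + h3)
        · ring
    exact LinearMap.congr_fun key P
  · rw [rd0_mono]
    funext v
    have h1 : ∀ i, (emb u) i = (u i : ℕ) := fun i => rfl
    have h2 : ∀ i, (u i : ℕ) % (e + 1) = (u i : ℕ) := fun i =>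
      Nat.mod_eq_of_lt ((u i).2.trans (Nat.lt_succ_self e))
    have h3 : ∀ i, (u i : ℕ) / (e + 1) = 0 := fun i =>
      Nat.div_eq_of_lt ((u i).2.trans (Nat.lt_succ_self e))
    by_cases h : v = u
    · subst h
      rw [Pi.single_eq_same, if_pos (fun i => by rw [h1, h2])]
      unfold r0c
      simp only [h1, h3, Finset.range_zero, Finset.prod_empty, Finset.prod_const_one]
    · rw [Pi.single_eq_of_ne h, if_neg]
      intro h'
      apply h
      funext i
      have := h' i
      rw [h1, h2] at this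
      exact (Fin.ext this).symm

theorem prod_mono {ι : Type} [Fintype ι] [DecidableEq ι] {L : Type} [CommRing L] (T : Finset ι)
    (f : ι → ι →₀ ℕ) (r : ι → L) :
    ∏ i ∈ T, monomial (f i) (r i) = monomial (∑ i ∈ T, f i) (∏ i ∈ T, r i) := by
  induction T using Finset.induction_on with
  | empty => simp
  | insert i T hi ih =>
    rw [Finset.prod_insert hi, Finset.sum_insert hi, Finset.prod_insert hi, ih, monomial_mul]

theorem h_LM0 : S_LM0 := by
  intro ι _ _ L _ e he a c j
  ext v w
  unfold LM leadv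
  simp only [pd, monomial_pow]
  rw [prod_mono, monomial_mul, mul_one]
  have h1 : ∑ i, qt e w.1 i • Finsupp.single i e + emb (rm e he w.1) = w.1 := by
    ext k
    rw [Finsupp.add_apply, Finsupp.finsetSum_apply, Finset.sum_eq_single k]
    · rw [Finsupp.smul_apply, Finsupp.single_eq_same, smul_eq_mul]
      show w.1 k / e * e + w.1 k % e = w.1 k
      exact Nat.div_add_mod' _ _
    · intro i _ hi
      rw [Finsupp.smul_apply, Finsupp.single_eq_of_ne hi.symm, smul_zero]
    · intro h; exact absurd (Finset.mem_univ _) h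
  rw [h1, coeff_monomial, Matrix.diagonal_apply]
  by_cases h : w = v
  · subst h; simp
  · have h2 : w.1 ≠ v.1 := fun h' => h (Subtype.ext h')
    have h3 : v ≠ w := fun h' => h h'.symm
    rw [if_neg h2, if_neg h3]

section EK

variable {ι : Type} [Fintype ι] [DecidableEq ι] {L : Type} [CommRing L]

theorem coeff_EKs (p : ℕ) [Fact p.Prime] (s : ι →₀ ℕ) (c : L) (w : ι →₀ ℕ) :
    MvPowerSeries.coeff w (EKs p s c) =
      ∑ j ∈ Finset.range (w.degree + 1), if j • s = w then (ebn p j : L) * c ^ j else 0 := by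
  classical
  rw [MvPowerSeries.coeff_apply]
  unfold EKs
  refine Finset.sum_congr rfl fun j _ => ?_
  congr

theorem EKs_ne (p : ℕ) [Fact p.Prime] (s : ι →₀ ℕ) (c : L) (w : ι →₀ ℕ) (h : ∀ j : ℕ, j • s ≠ w) :
    MvPowerSeries.coeff w (EKs p s c) = 0 := by
  rw [coeff_EKs]
  exact Finset.sum_eq_zero fun j _ => if_neg (h j)

theorem smul_single' (j d : ℕ) (i : ι) : j • Finsupp.single i d = Finsupp.single i (d * j) := by
  rw [Finsupp.smul_single, smul_eq_mul, mul_comm]

theorem EKs_eq (p : ℕ) [Fact p.Prime] {d : ℕ} (hd : 0 < d) (i : ι) (c : L) (j : ℕ) :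
    MvPowerSeries.coeff (Finsupp.single i (d * j)) (EKs p (Finsupp.single i d) c) =
      (ebn p j : L) * c ^ j := by
  rw [coeff_EKs, Finset.sum_eq_single j]
  · rw [if_pos (smul_single' j d i)]
  · intro j' _ hj'
    rw [if_neg]
    intro h
    rw [smul_single'] at h
    have h1 := Finsupp.single_injective i h
    exact hj' (Nat.eq_of_mul_eq_mul_left hd h1)
  · intro h
    exfalso
    apply h
    rw [Finset.mem_range, Finsupp.degree_single]
    nlinarith

theorem ebn_small (p : ℕ) [Fact p.Prime] (j : ℕ) (hj : j < p) :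
    ((ebn p j : ℕ) : ZMod p) * (j.factorial : ZMod p) = 1 := by
  have h1 := AH.bb_small p j hj
  have hnd : ¬ p ∣ j.factorial := fun h =>
    absurd ((Nat.Prime.dvd_factorial (Fact.out : p.Prime)).1 h) (not_le.2 hj)
  have h2 : ‖((j.factorial : ℕ) : ℚ_[p])‖ = 1 :=
    Padic.norm_natCast_eq_one_iff.2 (((Fact.out : p.Prime).coprime_iff_not_dvd).2 hnd)
  have h5 : ‖PowerSeries.coeff j (AH.bb p)‖ ≤ 1 := by
    have := congrArg (fun x : ℚ_[p] => ‖x‖) h1
    simp only [norm_mul, h2, mul_one, norm_one] at this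
    exact this.le
  obtain ⟨x, hx, h6⟩ : ∃ x : ℤ_[p], (x : ℚ_[p]) = PowerSeries.coeff j (AH.bb p) ∧
      ebn p j = (PadicInt.toZMod x).val := by
    refine ⟨⟨PowerSeries.coeff j (AH.bb p), h5⟩, rfl, ?_⟩
    unfold ebn
    rw [dif_pos h5]
  rw [h6, ZMod.natCast_zmod_val]
  have h7 : x * ((j.factorial : ℕ) : ℤ_[p]) = 1 := by
    apply Subtype.ext
    rw [PadicInt.coe_mul, PadicInt.coe_natCast, PadicInt.coe_one, hx]
    exact h1
  rw [← map_natCast (PadicInt.toZMod (p := p)), ← map_mul, h7, map_one]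

theorem ebn_zero (p : ℕ) [Fact p.Prime] : ebn p 0 = 1 := by
  have h1 := ebn_small p 0 (Fact.out : p.Prime).pos
  rw [Nat.factorial_zero, Nat.cast_one, mul_one] at h1
  have h2 : ebn p 0 < p := by
    unfold ebn
    split_ifs
    · exact ZMod.val_lt _
    · exact (Fact.out : p.Prime).pos
  have h3 : ((ebn p 0 : ℕ) : ZMod p) = ((1 : ℕ) : ZMod p) := by rw [h1, Nat.cast_one]
  rw [ZMod.natCast_eq_natCast_iff'] at h3
  rwa [Nat.mod_eq_of_lt h2, Nat.mod_eq_of_lt (Fact.out : p.Prime).one_lt] at h3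

theorem ebn_ne (p : ℕ) [Fact p.Prime] (k : Type) [Field k] [CharP k p] (j : ℕ) (hj : j < p) :
    ((ebn p j : ℕ) : k) ≠ 0 := by
  intro h
  rw [CharP.cast_eq_zero_iff k p] at h
  have h1 := ebn_small p j hj
  rw [(ZMod.natCast_eq_zero_iff _ _).2 h, zero_mul] at h1
  exact zero_ne_one h1

theorem EKs_zero (p : ℕ) [Fact p.Prime] (s : ι →₀ ℕ) : EKs p s (0 : L) = 1 := by
  ext w
  rw [coeff_EKs, MvPowerSeries.coeff_one, Finset.sum_eq_single 0]
  · rw [zero_smul, ebn_zero]
    by_cases h : w = 0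
    · subst h; simp
    · rw [if_neg h, if_neg (fun h' => h h'.symm)]
  · intro j _ hj
    rw [zero_pow hj, mul_zero, ite_self]
  · intro h
    exact absurd (Finset.mem_range.2 (Nat.succ_pos _)) h

theorem prod_EK (p : ℕ) [Fact p.Prime] {d : ℕ} (hd : 0 < d) (a : ι → L) (c : (ι →₀ ℕ) → L) :
    ∏ s ∈ Sd ι d, EKs p s (fam d a c 0 s) = ∏ i, EKs p (Finsupp.single i d) (a i) := by
  have hinj : Set.InjOn (fun i : ι => Finsupp.single i d) (Finset.univ : Finset ι) :=
    fun i _ j _ h => (Finsupp.single_left_inj hd.ne').1 h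
  have h1 : ∏ i, EKs p (Finsupp.single i d) (a i) =
      ∏ s ∈ Finset.univ.image (fun i : ι => Finsupp.single i d), EKs p s (fam d a c 0 s) := by
    rw [Finset.prod_image hinj]
    exact Finset.prod_congr rfl fun i _ => by rw [fam_single hd]
  rw [h1]
  symm
  refine Finset.prod_subset ?_ ?_
  · intro s hs
    obtain ⟨i, _, rfl⟩ := Finset.mem_image.1 hs
    exact (mem_Sd d _).2 (Finsupp.degree_single _ _)
  · intro s _ hs
    rw [fam_ne d a c s, EKs_zero]
    intro i h
    exact hs (Finset.mem_image.2 ⟨i, Finset.mem_univ i, h.symm⟩)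

theorem anti_term (p : ℕ) [Fact p.Prime] {d : ℕ} (a : ι → L) (W : ι →₀ ℕ)
    (l : ι →₀ (ι →₀ ℕ)) (hl : l ∈ Finset.finsuppAntidiag Finset.univ W)
    (h : ∏ i, MvPowerSeries.coeff (l i) (EKs p (Finsupp.single i d) (a i)) ≠ 0) (k : ι) :
    d ∣ W k ∧ l k = Finsupp.single k (W k) := by
  have h1 : ∀ i, ∃ j : ℕ, j • Finsupp.single i d = l i := by
    intro i
    by_contra hcon
    push Not at hcon
    exact h (Finset.prod_eq_zero (Finset.mem_univ i) (EKs_ne p _ _ _ hcon))
  choose j hj using h1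
  have h2 : ∑ i, l i = W := (Finset.mem_finsuppAntidiag.1 hl).1
  have h3 : W k = d * j k := by
    rw [← h2, Finsupp.finsetSum_apply, Finset.sum_eq_single k]
    · rw [← hj k, smul_single', Finsupp.single_eq_same]
    · intro i _ hi
      rw [← hj i, smul_single', Finsupp.single_eq_of_ne hi.symm]
    · intro h; exact absurd (Finset.mem_univ _) h
  refine ⟨⟨j k, h3⟩, ?_⟩
  rw [h3, ← hj k, smul_single']

theorem coeff_zero' (p : ℕ) [Fact p.Prime] {d : ℕ} (a : ι → L) (W : ι →₀ ℕ) (k : ι)
    (hk : ¬ d ∣ W k) :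
    MvPowerSeries.coeff W (∏ i, EKs p (Finsupp.single i d) (a i)) = 0 := by
  rw [MvPowerSeries.coeff_prod]
  refine Finset.sum_eq_zero fun l hl => ?_
  by_contra h
  exact hk (anti_term p a W l hl h k).1

theorem coeff_val (p : ℕ) [Fact p.Prime] {d : ℕ} (hd : 0 < d) (a : ι → L) (W : ι →₀ ℕ)
    (hW : ∀ i, d ∣ W i) :
    MvPowerSeries.coeff W (∏ i, EKs p (Finsupp.single i d) (a i)) =
      ∏ i, ((ebn p (W i / d) : L) * a i ^ (W i / d)) := by
  rw [MvPowerSeries.coeff_prod]
  rw [Finset.sum_eq_single (Finsupp.equivFunOnFinite.symm (fun i => Finsupp.single i (W i)))]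
  · refine Finset.prod_congr rfl fun i _ => ?_
    rw [Finsupp.equivFunOnFinite_symm_apply_apply]
    conv_lhs => rw [← Nat.mul_div_cancel' (hW i)]
    exact EKs_eq p hd i (a i) _
  · intro l hl hne
    by_contra h
    apply hne
    ext1 i
    exact (anti_term p a W l hl h i).2
  · intro h
    exfalso
    apply h
    rw [Finset.mem_finsuppAntidiag]
    refine ⟨?_, Finset.subset_univ _⟩
    simp only [Finsupp.equivFunOnFinite_symm_apply_apply]
    exact Finsupp.univ_sum_single W

end EK

theorem h_T0 : S_T0 := by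
  intro ι _ _ k _ p e _ _ he a c hpe ha u' u
  have hp : p.Prime := Fact.out
  have hd : 0 < e + 1 := Nat.succ_pos e
  obtain ⟨m, hm⟩ : (e + 1) ∣ p - 1 := (Nat.modEq_iff_dvd' hp.one_lt.le).1 hpe.symm
  have hm0 : 0 < m := by
    rcases Nat.eq_zero_or_pos m with h | h
    · rw [h, mul_zero] at hm
      have := hp.one_lt
      omega
    · exact h
  have hpm : p = (e + 1) * m + 1 := by
    have := hp.one_lt
    omega
  have hde : ((e + 1 : ℕ) : k) ≠ 0 := by
    intro h
    rw [CharP.cast_eq_zero_iff k p] at h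
    have h1 := Nat.le_of_dvd hd h
    have h2 : e + 1 ≤ (e + 1) * m := Nat.le_mul_of_pos_right _ hm0
    omega
  have hfam : (fun s => fam (e + 1) a c 0 s ^ p) = fam (e + 1) (fun i => a i ^ p) c 0 := by
    funext s
    by_cases hs : ∃ i, s = Finsupp.single i (e + 1)
    · obtain ⟨i, rfl⟩ := hs
      rw [fam_single hd, fam_single hd]
    · push Not at hs
      rw [fam_ne _ _ _ _ hs, fam_ne _ _ _ _ hs, zero_pow hp.ne_zero]
  have hb : bnum p e he (fam (e + 1) a c 0) u' u =
      (∏ w ∈ Finset.univ.erase (⟨emb u', emb_mem_Sd u'⟩ : Sd ι (bdeg u')),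
        ∏ i, (((e + 1 : ℕ) : k) * a i ^ p) ^ qt e w.1 i) *
      kap p (e + 1) (fam (e + 1) a c 0) (emb u' + one1) (emb u + one1) := by
    unfold bnum
    rw [hfam, h_LM0 ι k e he (fun i => a i ^ p) c (bdeg u'), Matrix.adjugate_diagonal,
      Finset.sum_eq_single (⟨emb u', emb_mem_Sd u'⟩ : Sd ι (bdeg u'))]
    · rw [Matrix.diagonal_apply_eq]
    · intro v _ hv
      rw [Matrix.diagonal_apply_ne _ hv.symm, zero_mul]
    · intro h; exact absurd (Finset.mem_univ _) h
  have hone : ∀ i, (one1 : ι →₀ ℕ) i = 1 := by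
    intro i
    unfold one1
    rw [oneA_apply, if_pos (Finset.mem_univ i)]
  have hV : ∀ (v : ι → Fin e) (i : ι), (emb v + one1 : ι →₀ ℕ) i = (v i : ℕ) + 1 := by
    intro v i
    rw [Finsupp.add_apply, hone]
    rfl
  rw [hb]
  refine ⟨fun hne => ?_, fun heq => ?_⟩
  · -- some coordinate differs
    have : kap p (e + 1) (fam (e + 1) a c 0) (emb u' + one1) (emb u + one1) = 0 := by
      unfold kap
      split_ifs with hle
      · rw [prod_EK p hd]
        obtain ⟨i, hi⟩ : ∃ i, u' i ≠ u i := by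
          by_contra h
          push Not at h
          exact hne (funext h)
        refine coeff_zero' p a _ i ?_
        intro hdvd
        apply hi
        rw [Finsupp.tsub_apply, Finsupp.smul_apply, hV, hV, smul_eq_mul] at hdvd
        have h1 := hle i
        rw [Finsupp.smul_apply, hV, hV, smul_eq_mul] at h1
        have h2 : (((e + 1 : ℕ) : ℤ)) ∣ ((p * ((u' i : ℕ) + 1) - ((u i : ℕ) + 1) : ℕ) : ℤ) :=
          Int.natCast_dvd_natCast.2 hdvd
        rw [Nat.cast_sub h1, hpm] at h2
        push_cast at h2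
        have h3 : ((e : ℤ) + 1) ∣ ((u' i : ℕ) : ℤ) - ((u i : ℕ) : ℤ) := by
          have h4 : (((e : ℤ) + 1) * m + 1) * (((u' i : ℕ) : ℤ) + 1) - (((u i : ℕ) : ℤ) + 1) =
              ((u' i : ℕ) : ℤ) - ((u i : ℕ) : ℤ) + ((e : ℤ) + 1) * (m * (((u' i : ℕ) : ℤ) + 1)) := by
            ring
          rw [h4] at h2
          exact (dvd_add_left (Dvd.intro _ rfl)).1 h2
        have h5 : |((u' i : ℕ) : ℤ) - ((u i : ℕ) : ℤ)| < (e : ℤ) + 1 := by
          have := (u' i).2
          have := (u i).2
          rw [abs_lt]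
          constructor <;> omega
        have h6 := Int.eq_zero_of_abs_lt_dvd h3 h5
        apply Fin.ext
        omega
      · rfl
    rw [this, mul_zero]
  · subst heq
    refine mul_ne_zero ?_ ?_
    · refine Finset.prod_ne_zero_iff.2 fun w _ => Finset.prod_ne_zero_iff.2 fun i _ => ?_
      exact pow_ne_zero _ (mul_ne_zero hde (pow_ne_zero _ (ha i)))
    · unfold kap
      have hle : emb u' + one1 ≤ p • (emb u' + one1) := by
        intro i
        rw [Finsupp.smul_apply, smul_eq_mul]
        exact Nat.le_mul_of_pos_left _ hp.pos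
      rw [if_pos hle, prod_EK p hd]
      have hW : ∀ i : ι, (p • (emb u' + one1) - (emb u' + one1) : ι →₀ ℕ) i =
          (e + 1) * (m * ((u' i : ℕ) + 1)) := by
        intro i
        rw [Finsupp.tsub_apply, Finsupp.smul_apply, hV, smul_eq_mul, hpm, add_mul, one_mul,
          Nat.add_sub_cancel, mul_assoc]
      rw [coeff_val p hd a _ (fun i => by rw [hW]; exact Dvd.intro _ rfl)]
      refine Finset.prod_ne_zero_iff.2 fun i _ => ?_
      rw [hW, Nat.mul_div_cancel_left _ hd]
      refine mul_ne_zero (ebn_ne p k _ ?_) (pow_ne_zero _ (ha i))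
      have h1 : (u' i : ℕ) + 1 ≤ e := (u' i).2
      have h2 : m * ((u' i : ℕ) + 1) ≤ m * e := Nat.mul_le_mul_left m h1
      have h3 : (e + 1) * m = m * e + m := by ring
      omega

end Pool.Agent.H747.BK
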